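import Pool.Agent.Helper70.EQ.Goals

/-!
# Project EQ (MP_20ee5e_ag), packet EQ-ML: multiples of a Newton diagram
-/

open MeasureTheory Set Pool.Agent.Helper70.KN Pool.Agent.Helper70.EQ
open scoped Pointwise

namespace Pool.Agent.Helper41.EQ.ML

variable {N : ℕ}

theorem cast_mult (j : ℕ) (V : Finset (Fin N → ℕ)) :
    (fun (v : Fin N → ℕ) (i : Fin N) => (v i : ℝ)) '' ((mult j V : Finset (Fin N → ℕ)) : Set (Fin N → ℕ)) =
      (j : ℝ) • ((fun (v : Fin N → ℕ) (i : Fin N) => (v i : ℝ)) '' (V : Set (Fin N → ℕ))) := by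
  ext x
  constructor
  · rintro ⟨w, hw, rfl⟩
    rw [Finset.mem_coe, mult, Finset.mem_image] at hw
    obtain ⟨v, hv, rfl⟩ := hw
    refine ⟨fun i => (v i : ℝ), ⟨v, hv, rfl⟩, ?_⟩
    funext i
    simp
  · rintro ⟨y, ⟨v, hv, rfl⟩, rfl⟩
    refine ⟨fun i => j * v i, ?_, ?_⟩
    · rw [Finset.mem_coe, mult, Finset.mem_image]
      exact ⟨v, hv, rfl⟩
    · funext i
      simp

theorem newton_mult (j : ℕ) (hj : 1 ≤ j) (V : Finset (Fin N → ℕ)) (x : Fin N → ℝ) :
    x ∈ newton (mult j V) ↔ (fun i => x i / j) ∈ newton V := by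
  have hj0 : (0 : ℝ) < j := by exact_mod_cast hj
  simp only [newton, Set.mem_ofPred_eq]
  rw [cast_mult, convexHull_smul]
  constructor
  · rintro ⟨z, ⟨y, hy, rfl⟩, hz⟩
    refine ⟨y, hy, fun i => ?_⟩
    have h := hz i
    simp only [Pi.smul_apply, smul_eq_mul] at h
    rw [le_div_iff₀ hj0, mul_comm]
    exact h
  · rintro ⟨y, hy, hz⟩
    refine ⟨(j : ℝ) • y, ⟨y, hy, rfl⟩, fun i => ?_⟩
    have h := hz i
    simp only at h
    rw [le_div_iff₀ hj0, mul_comm] at h
    simpa using h

theorem convenient_mult (j : ℕ) (hj : 1 ≤ j) (V : Finset (Fin N → ℕ)) (hV : Convenient V) :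
    Convenient (mult j V) := by
  intro i
  obtain ⟨m, hm, hmV⟩ := hV i
  refine ⟨j * m, Nat.mul_pos hj hm, ?_⟩
  rw [mult, Finset.mem_image]
  refine ⟨_, hmV, ?_⟩
  funext k
  by_cases hk : k = i
  · subst hk
    simp
  · simp [Pi.single_eq_of_ne hk]

theorem thick_mult (j : ℕ) (hj : 1 ≤ j) (V : Finset (Fin N → ℕ)) (c : ℝ) (hV : Thick V c) :
    Thick (mult j V) (j * c) := by
  have hj0 : (0 : ℝ) < j := by exact_mod_cast hj
  obtain ⟨h1, h2, h3, h4⟩ := hV
  refine ⟨convenient_mult j hj V h1, mul_pos hj0 h2, ?_, ?_⟩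
  · intro h0
    rw [mult, Finset.mem_image] at h0
    obtain ⟨v, hv, hv0⟩ := h0
    apply h3
    have : v = 0 := by
      funext i
      have := congrFun hv0 i
      simp only [Pi.zero_apply] at this ⊢
      rcases Nat.mul_eq_zero.1 this with h | h
      · omega
      · exact h
    rwa [this] at hv
  · intro w hw i hwi
    rw [mult, Finset.mem_image] at hw
    obtain ⟨v, hv, rfl⟩ := hw
    have hvi : v i ≠ 0 := by
      intro h
      apply hwi
      simp [h]
    have := h4 v hv i hvi
    push_cast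
    exact mul_le_mul_of_nonneg_left this hj0.le

theorem W_mult (hMF : S_MF) (hSC : S_SC) (j : ℕ) (hj : 1 ≤ j) (V : Finset (Fin N → ℕ))
    (hV : Convenient V) (J : Finset (Fin N)) :
    W (mult j V) J = (j : ℝ) ^ (N - J.card) * W V J := by
  have hj0 : (0 : ℝ) < j := by exact_mod_cast hj
  have hmeas := (hMF N (mult j V) (convenient_mult j hj V hV) J).1
  have hDpos : ∀ i : Fin N, 0 < (if i ∈ J then (1 : ℝ) else (j : ℝ)) := by
    intro i
    split_ifs
    · exact one_pos
    · exact hj0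
  have h := hSC N (cyl (mult j V) J) (fun i => if i ∈ J then (1 : ℝ) else (j : ℝ)) hmeas hDpos
  have hset : {x : Fin N → ℝ | (fun i => (if i ∈ J then (1 : ℝ) else (j : ℝ)) * x i) ∈ cyl (mult j V) J} =
      cyl V J := by
    ext x
    simp only [cyl, Set.mem_ofPred_eq]
    rw [newton_mult j hj]
    have e1 : (0 ≤ fun i => (if i ∈ J then (1 : ℝ) else (j : ℝ)) * x i) ↔ 0 ≤ x := by
      constructor
      · intro h i
        have := h i
        simp only [Pi.zero_apply] at this ⊢
        exact nonneg_of_mul_nonneg_right this (hDpos i)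
      · intro h i
        exact mul_nonneg (hDpos i).le (h i)
    have e2 : (∀ k ∈ J, (if k ∈ J then (1 : ℝ) else (j : ℝ)) * x k < 1) ↔ ∀ k ∈ J, x k < 1 := by
      constructor
      · intro h k hk
        have := h k hk
        simpa [hk] using this
      · intro h k hk
        simpa [hk] using h k hk
    have e3 : (fun i => zr J (fun i => (if i ∈ J then (1 : ℝ) else (j : ℝ)) * x i) i / (j : ℝ)) = zr J x := by
      funext i
      by_cases hi : i ∈ J
      · simp [zr, hi]
      · simp only [zr, hi, if_false]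
        field_simp
    rw [e1, e2, e3]
  rw [hset] at h
  have hprod : ∏ i : Fin N, (if i ∈ J then (1 : ℝ) else (j : ℝ)) = (j : ℝ) ^ (N - J.card) := by
    rw [Finset.prod_ite]
    simp only [Finset.prod_const_one, one_mul, Finset.prod_const]
    congr 1
    have : (Finset.univ.filter fun i : Fin N => i ∉ J) = Jᶜ := by
      ext i
      simp
    rw [this, Finset.card_compl, Fintype.card_fin]
  rw [W, h, ENNReal.toReal_mul, hprod, ENNReal.toReal_ofReal (pow_nonneg hj0.le _), W]

theorem t (_hCL : S_CL) (hMF : S_MF) (hSC : S_SC) : G_ML := by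
  intro N V j hj hV
  refine ⟨convenient_mult j hj V hV, fun c hc => thick_mult j hj V c hc, ?_⟩
  intro k _hk
  have hX : X (mult j V) k = (j : ℝ) ^ (N - k) * X V k := by
    rw [X, X, Finset.mul_sum]
    refine Finset.sum_congr rfl fun J hJ => ?_
    rw [Finset.mem_powersetCard] at hJ
    rw [W_mult hMF hSC j hj V hV J, hJ.2]
  rw [T, T, hX]
  ring

end Pool.Agent.Helper41.EQ.ML
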