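import Pool.Agent.Helper98.EQ.Goals

/-!
# Project EQ, packet TRE: the trace of `x ↦ a x b`
-/

set_option autoImplicit false
set_option linter.unusedSectionVars false

namespace Pool.Agent.Helper41.EQ.TRE

open MonoidAlgebra
open Pool.Agent.Helper47.EP (Dat Chr Hs Om ee ev pHB Om_add_left Om_add_right Om_zero_left
  Om_zero_right Om_neg_left Om_neg_right Om_self)

variable {p : ℕ} [Fact p.Prime] {T : Dat p} {A : Type} [Fintype A] [DecidableEq A]
  {R : Type} [CommRing R]

omit [Fact p.Prime] in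
theorem w_anti (T : Dat p) (x y : T.K) : T.w x y = -T.w y x := by
  have h := T.alt (x + y)
  rw [map_add, map_add, AddMonoidHom.add_apply, AddMonoidHom.add_apply, T.alt, T.alt] at h
  rw [zero_add, add_zero] at h
  rw [eq_neg_iff_add_eq_zero, add_comm]
  exact h

theorem om_nsmul (n : ℕ) (u v : A → T.K) : Om (n • u) v = (n : ZMod T.l) * Om u v := by
  induction n with
  | zero => rw [zero_smul, Om_zero_left, Nat.cast_zero, zero_mul]
  | succ n ih => rw [succ_nsmul, Om_add_left, ih, Nat.cast_succ]; ring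

theorem om_single (a : A) (y : T.K) (v : A → T.K) : Om (Pi.single a y) v = T.w y (v a) := by
  unfold Om
  rw [Finset.sum_eq_single a]
  · rw [Pi.single_eq_same]
  · intro b _ hb
    rw [Pi.single_eq_of_ne hb, map_zero]
    rfl
  · intro h
    exact absurd (Finset.mem_univ a) h

theorem charsum (C : Chr T R) (v : A → T.K) :
    ∑ w : A → T.K, C.ψ (2 * Om w v) =
      if v = 0 then (T.l : R) ^ (2 * Fintype.card A) else 0 := by
  split_ifs with hv
  · subst hv
    have h1 : ∀ w ∈ (Finset.univ : Finset (A → T.K)), C.ψ (2 * Om w 0) = 1 := by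
      intro w _
      rw [Om_zero_right, mul_zero, AddChar.map_zero_eq_one]
    rw [Finset.sum_congr rfl h1, Finset.sum_const, Finset.card_univ, Fintype.card_fun, T.card,
      nsmul_eq_mul, mul_one, Nat.cast_pow, Nat.cast_pow, pow_mul]
  · obtain ⟨a, ha⟩ : ∃ a, v a ≠ 0 := by
      by_contra h
      push Not at h
      exact hv (funext h)
    obtain ⟨y, hy⟩ := T.nondeg _ ha
    have hy' : T.w y (v a) ≠ 0 := by
      rw [w_anti]
      exact neg_ne_zero.2 hy
    have h2 : (2 : ZMod T.l) ≠ 0 := by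
      intro h
      have h3 : ((2 : ℕ) : ZMod T.l) = 0 := by exact_mod_cast h
      rw [ZMod.natCast_eq_zero_iff] at h3
      exact T.ne2 ((Nat.prime_dvd_prime_iff_eq T.prime Nat.prime_two).1 h3)
    set S := ∑ w : A → T.K, C.ψ (2 * Om w v) with hS
    have key : ∀ z : ZMod T.l, C.ψ (2 * T.w y (v a) * z) * S = S := by
      intro z
      rw [hS, Finset.mul_sum]
      refine Fintype.sum_equiv (Equiv.addLeft (z.val • (Pi.single a y : A → T.K))) _ _ ?_
      intro w
      rw [Equiv.coe_addLeft, ← AddChar.map_add_eq_mul, Om_add_left, om_nsmul, om_single,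
        ZMod.natCast_zmod_val]
      congr 1
      ring
    have h3 : (T.l : R) * S = 0 := by
      have h4 : ∑ z : ZMod T.l, C.ψ (2 * T.w y (v a) * z) * S = 0 := by
        rw [← Finset.sum_mul, C.sum_zero _ (mul_ne_zero h2 hy'), zero_mul]
      rw [Finset.sum_congr rfl fun z _ => key z, Finset.sum_const, Finset.card_univ, ZMod.card,
        nsmul_eq_mul] at h4
      exact h4
    calc S = (C.il * (T.l : R)) * S := by rw [C.il_mul, one_mul]
      _ = C.il * ((T.l : R) * S) := by ring
      _ = 0 := by rw [h3, mul_zero]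

theorem base (C : Chr T R) (u v : A → T.K) :
    ∑ h : Hs T A, (ev C u * single h 1 * ev C v).coeff h =
      if u = 0 ∧ v = 0 then (T.l : R) ^ (2 * Fintype.card A) else 0 := by
  obtain ⟨h1, h2, h3, h4, h5, h6, h7⟩ := pHB p T A R C
  have h0 : ev C (0 : A → T.K) = ee C A := by
    show single (⟨0, 0⟩ : Hs T A) (1 : R) * ee C A = ee C A
    have : (⟨0, 0⟩ : Hs T A) = 1 := rfl
    rw [this, ← MonoidAlgebra.one_def, one_mul]
  have h8 : ee C A * ev C v = ev C v := by
    rw [← h0, h4, Om_zero_left, AddChar.map_zero_eq_one, one_smul, zero_add]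
  have h9 : ∀ h : Hs T A, (ev C u * single h 1 * ev C v).coeff h =
      if u + v = 0 then C.il * C.ψ (2 * Om h.v v) else 0 := by
    intro h
    have e1 : ev C u * single h 1 * ev C v =
        (C.ψ h.z * C.ψ (Om h.v v) * C.ψ (Om u (h.v + v))) • ev C (u + (h.v + v)) := by
      rw [mul_assoc]
      nth_rewrite 1 [← h8]
      rw [← mul_assoc (single h (1 : R)), h3, smul_mul_assoc, h4, smul_smul, mul_smul_comm, h4,
        smul_smul]
    rw [e1]
    show (C.ψ h.z * C.ψ (Om h.v v) * C.ψ (Om u (h.v + v))) * (ev C (u + (h.v + v))).coeff h = _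
    rw [h5]
    by_cases huv : u + v = 0
    · have hu : u = -v := eq_neg_of_add_eq_zero_left huv
      have e2 : h.v = u + (h.v + v) := by rw [hu]; abel
      rw [if_pos e2, if_pos huv]
      have e3 : Om u (h.v + v) = Om h.v v := by
        rw [hu, Om_neg_left, Om_add_right, Om_self, add_zero]
        have : Om v h.v = -Om h.v v := by
          unfold Om
          rw [← Finset.sum_neg_distrib]
          exact Finset.sum_congr rfl fun a _ => w_anti T _ _
        rw [this, neg_neg]
      rw [e3]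
      have e4 : C.ψ h.z * C.ψ (-h.z) = 1 := by
        rw [← AddChar.map_add_eq_mul, add_neg_cancel, AddChar.map_zero_eq_one]
      have e5 : C.ψ (2 * Om h.v v) = C.ψ (Om h.v v) * C.ψ (Om h.v v) := by
        rw [← AddChar.map_add_eq_mul, two_mul]
      rw [e5]
      calc C.ψ h.z * C.ψ (Om h.v v) * C.ψ (Om h.v v) * (C.il * C.ψ (-h.z))
          = (C.ψ h.z * C.ψ (-h.z)) * (C.il * (C.ψ (Om h.v v) * C.ψ (Om h.v v))) := by ring
        _ = _ := by rw [e4, one_mul]
    · have e2 : ¬ h.v = u + (h.v + v) := by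
        intro e
        apply huv
        have : u + (h.v + v) = h.v + (u + v) := by abel
        rw [this] at e
        exact (left_eq_add.1 e)
      rw [if_neg e2, if_neg huv, mul_zero]
  rw [Finset.sum_congr rfl fun h _ => h9 h]
  by_cases huv : u + v = 0
  · simp only [if_pos huv]
    have e1 : ∑ h : Hs T A, C.il * C.ψ (2 * Om h.v v) =
        ∑ q : (A → T.K) × ZMod T.l, C.il * C.ψ (2 * Om q.1 v) :=
      Fintype.sum_equiv (Hs.equiv T A) _ _ fun h => rfl
    rw [e1, Fintype.sum_prod_type]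
    have e2 : ∀ w : A → T.K, ∑ z : ZMod T.l, C.il * C.ψ (2 * Om w v) = C.ψ (2 * Om w v) := by
      intro w
      rw [Finset.sum_const, Finset.card_univ, ZMod.card, nsmul_eq_mul]
      calc (T.l : R) * (C.il * C.ψ (2 * Om w v)) = (C.il * (T.l : R)) * C.ψ (2 * Om w v) := by ring
        _ = _ := by rw [C.il_mul, one_mul]
    rw [Finset.sum_congr rfl fun w _ => e2 w, charsum]
    by_cases hv : v = 0
    · have hu : u = 0 := by rwa [hv, add_zero] at huv
      rw [if_pos hv, if_pos ⟨hu, hv⟩]
    · rw [if_neg hv, if_neg fun h => hv h.2]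
  · simp only [if_neg huv]
    rw [Finset.sum_const_zero, if_neg]
    rintro ⟨hu, hv⟩
    exact huv (by rw [hu, hv, add_zero])

theorem t : Pool.Agent.Helper98.EQ.S_TRE := by
  intro p _ T A _ _ R _ C a b ha hb
  obtain ⟨h1, h2, h3, h4, h5, h6, h7⟩ := pHB p T A R C
  have ea := h6 a ha
  have eb := h6 b hb
  have key : ∀ h : Hs T A, (a * single h 1 * b).coeff h =
      ∑ u : A → T.K, ∑ v : A → T.K, ((T.l : R) * a.coeff ⟨u, 0⟩) * ((T.l : R) * b.coeff ⟨v, 0⟩) *
        (ev C u * single h 1 * ev C v).coeff h := by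
    intro h
    conv_lhs => rw [ea, eb]
    rw [Finset.sum_mul, Finset.sum_mul]
    simp only [Finset.mul_sum]
    rw [MonoidAlgebra.coeff_sum, Finset.sum_apply']
    refine Finset.sum_congr rfl fun u _ => ?_
    rw [MonoidAlgebra.coeff_sum, Finset.sum_apply']
    refine Finset.sum_congr rfl fun v _ => ?_
    rw [smul_mul_assoc, smul_mul_assoc, mul_smul_comm, smul_smul]
    rfl
  rw [Finset.sum_congr rfl fun h _ => key h, Finset.sum_comm]
  have e1 : ∀ u : A → T.K, ∑ h : Hs T A, ∑ v : A → T.K, ((T.l : R) * a.coeff ⟨u, 0⟩) *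
      ((T.l : R) * b.coeff ⟨v, 0⟩) * (ev C u * single h 1 * ev C v).coeff h =
      ∑ v : A → T.K, ((T.l : R) * a.coeff ⟨u, 0⟩) *
      ((T.l : R) * b.coeff ⟨v, 0⟩) *
        (if u = 0 ∧ v = 0 then (T.l : R) ^ (2 * Fintype.card A) else 0) := by
    intro u
    rw [Finset.sum_comm]
    refine Finset.sum_congr rfl fun v _ => ?_
    rw [← Finset.mul_sum, base]
  rw [Finset.sum_congr rfl fun u _ => e1 u, Finset.sum_eq_single 0, Finset.sum_eq_single 0]
  · rw [if_pos ⟨rfl, rfl⟩]
    have e2 : a.coeff (⟨0, 0⟩ : Hs T A) = a.coeff 1 := rfl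
    have e3 : b.coeff (⟨0, 0⟩ : Hs T A) = b.coeff 1 := rfl
    rw [e2, e3]
    ring
  · intro v _ hv
    rw [if_neg fun h => hv h.2, mul_zero]
  · intro h
    exact absurd (Finset.mem_univ _) h
  · intro u _ hu
    refine Finset.sum_eq_zero fun v _ => ?_
    rw [if_neg fun h => hu h.1, mul_zero]
  · intro h
    exact absurd (Finset.mem_univ _) h

end Pool.Agent.Helper41.EQ.TRE
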